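import Pool.Agent.P8H70.TU.Fin2
import Pool.Agent.P8H78.TU.Alg
import Pool.Agent.P8H43.TUN.Chp
import Pool.Agent.P8H45.TU.Lip
import Pool.Agent.P8H75.TU.J1
import Pool.Agent.P8H52.TUJ.J2
import Pool.Agent.P8H84.TU.Red
import Pool.Agent.P8H7.TU.Thr
import Pool.Agent.P8H76.TU.Val
import Pool.Agent.P8H53.TUS.Dir
import Pool.Agent.P8H88.TU2.Int

/-!
# Norm of the coefficient truncation operator in `L_p`, `0 < p < 2`: upper bounds with a logarithm

For every `p` in `(0, 1]` there is a `C` such that `N^comp_{n,p} ≤ C n^(1/p - 1/2) / log n` for all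
`n ≥ 3`, and for every `p` in `(1, 2)` there are `C, b > 0` such that
`N^comp_{n,p} ≤ C n^(1/p - 1/2) / (log n)^b` for all `n ≥ 3`; so the order `n^(1/p - 1/2)` of Nikolskii's
inequality is not attained for any `p < 2`.

Proof. Let `p = 1`, `m = (1/2π) ∫ |P| > 1`. The truncation `φ` on the disc of radius `m` is approximated by a
polynomial of degree `2^r` in `Re z` and `Im z` without constant term with the error `C m / 2^r` (Jackson's
theorem). The coefficients of `P` are the Fourier coefficients of a function of `L_1` norm `m`, and products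
of coefficients correspond to convolutions, so the approximating part has the `L_1` norm at most
`9 · 9^(2^r)`; the error has the `L_2` norm at most `sqrt(n+1) C m / 2^r`. Take `2^r` about `log n / 20`. The case
`p < 1` follows from `‖P‖_1 ≤ (n+1)^(1/p-1) ‖P‖_p`. For `1 < p < 2` write `P = f_1 + f_2` by a threshold for `|P|` of the
order `n` divided by a power of `log n`; `f_2` is small in `L_2`, and the `L_1` norm of `f_1` is at most a power of
`log n`, so that the first argument applies to its coefficients.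

Authors: helpers 70, 78, 43, 45, 75, 52, 84, 7, 76, 53, 88.
-/

set_option autoImplicit false

open Polynomial

namespace Pool.Agent.Results.MP_7d00fe_an.LogarithmicUpperBound

open Pool.Agent.P8H70.TR

/-- **The order of Nikolskii's inequality is not attained for `p < 2`.** -/
theorem result :
    (∀ p : ℝ, 0 < p → p ≤ 1 → ∃ C : ℝ, 0 < C ∧ ∀ n : ℕ, 3 ≤ n →
      NC p n ≤ ENNReal.ofReal (C * (n : ℝ) ^ (1 / p - 1 / 2) / Real.log n)) ∧
    (∀ p : ℝ, 1 < p → p < 2 → ∃ C b : ℝ, 0 < C ∧ 0 < b ∧ ∀ n : ℕ, 3 ≤ n →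
      NC p n ≤ ENNReal.ofReal (C * (n : ℝ) ^ (1 / p - 1 / 2) / (Real.log n) ^ b)) :=
  ⟨fun p hp hp1 =>
    Pool.Agent.P8H70.TU.upNC Pool.Agent.P8H78.TU.alg Pool.Agent.P8H43.TUN.chp
      Pool.Agent.P8H45.TU.lip_proof Pool.Agent.P8H75.TU.j1 Pool.Agent.P8H52.TUJ.j2
      Pool.Agent.P8H84.TU.red p hp hp1,
   fun p hp1 hp2 =>
    Pool.Agent.P8H70.TU.upNC2 Pool.Agent.P8H78.TU.alg Pool.Agent.P8H43.TUN.chp
      Pool.Agent.P8H45.TU.lip_proof Pool.Agent.P8H75.TU.j1 Pool.Agent.P8H52.TUJ.j2
      Pool.Agent.P8H7.TU.thr Pool.Agent.P8H76.TU.val Pool.Agent.P8H53.TUS.dir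
      Pool.Agent.P8H88.TU2.int p hp1 hp2⟩

end Pool.Agent.Results.MP_7d00fe_an.LogarithmicUpperBound
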