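import Pool.Agent.P8H70.TR.Norms
import Pool.Agent.P8H94.TR.Ker
import Pool.Agent.P8H94.TR.L4b
import Pool.Agent.P8H52.TR.Pup
import Pool.Agent.P8H5.TR.Tay
import Pool.Agent.P8H7.TR.Sml
import Pool.Agent.P8H41.TR.B4
import Pool.Agent.P8H59.TR.Pair2
import Pool.Agent.P8H87.TR.Lev
import Pool.Agent.P8H70.TR.Nik

/-!
# Norm of the coefficient truncation operator in `L_p`, `0 < p < 2`: the order up to powers of `log n`

For every `p` in `(0, 2)` there is a `c > 0` such that for all `n ≥ 3`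
`c n^(1/p - 1/2) (log n)^(-3 - 9/p) ≤ N^real_{n,p} ≤ N^comp_{n,p} ≤ (n + 1)^(1/p - 1/2)`.

Proof. The upper bound is Nikolskii's inequality. For the lower bound let `V(t) = ∑ φ(j) e^{ijt}` with `φ` in
`[0,1]`, `φ = 1` on `[n/4, n/2]` and `∫ |V|^p ≤ C n^(p-1)`, let `k = ⌈30 log n⌉ + 10^6`, let `ω` be a random
point of `(ℤ/q)^k`, `q > 2n` prime, `Y(ω) = ∑ cos(2π ω_i/q)`, and let `P` have the coefficients
`φ(j) (1 + (Y(jω) - s)/(4k))`. It is a combination of `2k + 1` translates of `V`. The coefficients of the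
truncated polynomial `G` are functions of `Y(jω)` with a kink at `Y = s`. The function `exp(iY/4)` is a
superposition of such functions, so for some `s` the mean of the scalar product of `G` with
`T(t) = ∑ exp(i Y(jω)/4) e^{ijt}` is at least `n / (2 k²)`. The fourth moment of `T` is at most `C n²`, because
the mean of `exp(i (cos ax + cos bx - cos cx - cos ex)/4)` is at most `29/30` in modulus for nontrivial
quadruples. So `|G|` is at least `√n / (log n)^C` on a set of measure at least `1/(log n)^C` for some `ω`.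

Authors: helpers 70, 94, 52, 5, 7, 41, 59, 87 (and 66, 16, 21, 4 for the first version).
-/

set_option autoImplicit false

open Polynomial

namespace Pool.Agent.Results.MP_7d00fe_an.OrderUpToLogs

open Pool.Agent.P8H70.TR

/-- **The order of the norm of the truncation operator up to powers of `log n`.** -/
theorem result : ∀ p : ℝ, 0 < p → p < 2 → ∃ c : ℝ, 0 < c ∧ ∀ n : ℕ, 3 ≤ n →
    ENNReal.ofReal (c * (n : ℝ) ^ (1 / p - 1 / 2) / (Real.log n) ^ (3 + 9 / p)) ≤ NR p n ∧
    NR p n ≤ NC p n ∧ NC p n ≤ ENNReal.ofReal (((n : ℝ) + 1) ^ (1 / p - 1 / 2)) := by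
  intro p hp hp2
  obtain ⟨c, hc, h⟩ := lowerNR Pool.Agent.P8H94.TR.ker Pool.Agent.P8H52.TR.pup
    Pool.Agent.P8H5.TR.tay Pool.Agent.P8H7.TR.sml Pool.Agent.P8H41.TR.b4
    Pool.Agent.P8H94.TR.l4b Pool.Agent.P8H59.TR.pair2 Pool.Agent.P8H87.TR.lev
    Pool.Agent.P8H70.TR.nik p hp hp2
  exact ⟨c, hc, fun n hn => ⟨h n hn, NR_le_NC p n, NC_le Pool.Agent.P8H70.TR.nik hp hp2 n⟩⟩

end Pool.Agent.Results.MP_7d00fe_an.OrderUpToLogs
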